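import Pool.Agent.X212.BootUpper
import Pool.Agent.X212.BootWheel
set_option autoImplicit false
set_option linter.unusedVariables false
namespace Pool.Agent.Results.MP_7332c2_co.WheelPendant

open Pool.Agent.X212.Boot Filter

lemma it_S {n : ℕ} (G : SimpleGraph (Fin n)) (i : ℕ) : (step (pendant W6 none))^[i + 1] G = (step (pendant W6 none)) ((step (pendant W6 none))^[i] G) :=
  Function.iterate_succ_apply' _ _ _

/-- With a universal vertex the process stops after logarithmically many rounds. -/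
lemma stable_univ {n : ℕ} (hn : 8 ≤ n) {G : SimpleGraph (Fin n)} {x : Fin n}
    (hx : ∀ z, z ≠ x → G.Adj x z) :
    ∃ k, k ≤ Nat.clog 5 n + 42 ∧ (step (pendant W6 none))^[k] G = (step (pendant W6 none))^[k + 1] G := by
  have hxi : ∀ i z, z ≠ x → ((step (pendant W6 none))^[i] G).Adj x z := fun i z hz =>
    iter_mono (Nat.zero_le i) (hx z hz)
  by_cases hA : ∃ i, i ≤ Nat.clog 5 n + 38 ∧ ∃ y, y ≠ x ∧ ∃ r, Full ((step (pendant W6 none))^[i] G) y r
  · obtain ⟨i, hi, y, hy, r, hr⟩ := hA
    refine ⟨i + 4, by omega, le_antisymm (iter_le _) ?_⟩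
    intro u v huv
    rw [it_S, it_S, it_S, it_S]
    exact collapse hn (hxi i) hy hr huv.ne
  push Not at hA
  have hoff : ∀ i, i ≤ Nat.clog 5 n + 38 → off x ((step (pendant W6 none))^[i] G) = s6^[i] (off x G) := by
    intro i
    induction i with
    | zero => exact fun _ => rfl
    | succ i ih =>
      intro hi
      rw [it_S, it_succ, ← ih (by omega)]
      refine off_step hn (hxi i) fun y hy r hr => ?_
      rw [← it_S] at hr
      exact hA (i + 1) hi y hy r hr
  refine ⟨Nat.clog 5 n + 37, by omega, le_antisymm (iter_le _) ?_⟩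
  have h1 := hoff (Nat.clog 5 n + 37) (by omega)
  have h2 := hoff (Nat.clog 5 n + 37 + 1) (by omega)
  have h3 := s6_stable (off x G)
  rw [Fintype.card_fin] at h3
  have h4 : off x ((step (pendant W6 none))^[Nat.clog 5 n + 37] G) = off x ((step (pendant W6 none))^[Nat.clog 5 n + 37 + 1] G) := by
    rw [h1, h2, h3]
  intro u v huv
  by_cases cu : u = x
  · subst cu
    exact hxi _ _ huv.ne.symm
  by_cases cv : v = x
  · subst cv
    exact (hxi _ _ huv.ne).symm
  have h5 : (off x ((step (pendant W6 none))^[Nat.clog 5 n + 37 + 1] G)).Adj u v := ⟨huv, cu, cv⟩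
  rw [← h4] at h5
  exact h5.1

lemma run_le {n : ℕ} (G : SimpleGraph (Fin n)) :
    runTime (pendant W6 none) G ≤ Nat.clog 5 n + 44 := by
  by_cases hG : G = (step (pendant W6 none)) G
  · exact (runTime_le (t := 0) hG).trans (Nat.zero_le _)
  obtain ⟨y, z, hne, hc⟩ : ∃ y z, y ≠ z ∧ Completes (pendant W6 none) G y z := by
    by_contra hcon
    push Not at hcon
    apply hG
    refine le_antisymm le_step ?_
    rintro y z (h | ⟨h1, h2⟩)
    · exact h
    · exact (hcon y z h1 h2).elim
  have hn : 8 ≤ n := by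
    obtain ⟨φ, hφ, -⟩ := hc
    have := Fintype.card_le_of_injective φ hφ
    simpa using this
  have hS : ((step (pendant W6 none)) G).Adj y z := Or.inr ⟨hne, hc⟩
  have hsub : ∀ a b, G.Adj a b ∨ s(a, b) = s(y, z) → ((step (pendant W6 none)) G).Adj a b := by
    rintro a b (h | h)
    · exact Or.inl h
    · rw [Sym2.eq_iff] at h
      rcases h with ⟨rfl, rfl⟩ | ⟨rfl, rfl⟩
      · exact hS
      · exact hS.symm
  obtain ⟨g, r, l, hw, -⟩ := completes_pen hc
  have hf : Full ((step (pendant W6 none)) G) g r := ⟨hw.inj, hw.hub, fun j => hsub _ _ (hw.spoke j),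
    fun j => hsub _ _ (hw.rim j)⟩
  obtain ⟨k, hk, hk'⟩ := stable_univ hn (G := (step (pendant W6 none)) ((step (pendant W6 none)) G)) (x := g) fun z hz => full_univ hf hz
  refine (runTime_le (t := k + 2) ?_).trans (by omega)
  have e1 : (step (pendant W6 none))^[k + 2] G = (step (pendant W6 none))^[k] ((step (pendant W6 none)) ((step (pendant W6 none)) G)) := Function.iterate_add_apply _ k 2 G
  have e2 : (step (pendant W6 none))^[k + 2 + 1] G = (step (pendant W6 none))^[k + 1] ((step (pendant W6 none)) ((step (pendant W6 none)) G)) := by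
    rw [show k + 2 + 1 = (k + 1) + 2 by ring, Function.iterate_add_apply]
    rfl
  rw [e1, e2, hk']

lemma pen_upper (n : ℕ) : maxTime (pendant W6 none) n ≤ Nat.clog 5 n + 44 :=
  maxTime_le fun G => run_le G

/-- The wheel `W₆` with a pendant edge at the hub: its maximum running time is unbounded but only
logarithmic, while the one of the wheel is at least linear. -/
theorem result :
    W6.Connected ∧
    (∀ n, (n - 2) / 5 ≤ maxTime W6 n) ∧
    (∀ n, maxTime (pendant W6 none) n ≤ Nat.clog 5 n + 44) ∧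
    (∀ t n, 5 ^ t + 8 ≤ n → t + 1 ≤ maxTime (pendant W6 none) n) ∧
    ¬ ∀ (W : Type) [Finite W] (H : SimpleGraph W) (u : W), H.Connected →
      (∃ B, ∀ n, maxTime (pendant H u) n ≤ B) ∨
      ∃ c C : ℝ, 0 < c ∧ c ≤ C ∧ ∀ᶠ n : ℕ in atTop,
        c * maxTime H n ≤ maxTime (pendant H u) n ∧
        (maxTime (pendant H u) n : ℝ) ≤ C * maxTime H n := by
  refine ⟨w6_connected, w6_lower, pen_upper, fun t n h => pen_lower h, fun hall => ?_⟩
  rcases hall _ W6 none w6_connected with ⟨B, hB⟩ | ⟨c, C, hc, -, hev⟩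
  · have h1 := pen_lower (le_refl (5 ^ B + 8))
    have h2 := hB (5 ^ B + 8)
    omega
  · have htend := tendsto_pow_const_div_const_pow_of_one_lt 1 (show (1 : ℝ) < 5 by norm_num)
    have hsm : ∀ᶠ m : ℕ in atTop, (m : ℝ) ^ 1 / 5 ^ m < c / 2 :=
      htend.eventually_lt_const (by positivity)
    have hpow : Tendsto (fun m : ℕ => 5 ^ (m + 1)) atTop atTop :=
      (tendsto_pow_atTop_atTop_of_one_lt (by norm_num)).comp (tendsto_add_atTop_nat 1)
    have hbig : ∀ᶠ m : ℕ in atTop, c + 45 ≤ m := by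
      obtain ⟨N, hN⟩ := exists_nat_ge (c + 45)
      filter_upwards [eventually_ge_atTop N] with m hm
      exact hN.trans (by exact_mod_cast hm)
    obtain ⟨m, h1, h2, h3⟩ := (hsm.and (hbig.and (hpow.eventually hev))).exists
    obtain ⟨h3, -⟩ := h3
    have h4 : (maxTime (pendant W6 none) (5 ^ (m + 1)) : ℝ) ≤ m + 45 := by
      have h := pen_upper (5 ^ (m + 1))
      rw [Nat.clog_pow _ _ (by norm_num)] at h
      have : ((maxTime (pendant W6 none) (5 ^ (m + 1)) : ℕ) : ℝ) ≤ ((m + 1 + 44 : ℕ) : ℝ) := by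
        exact_mod_cast h
      push_cast at this
      linarith
    have h5 : (5 : ℝ) ^ m - 1 ≤ maxTime W6 (5 ^ (m + 1)) := by
      have h := w6_lower (5 ^ (m + 1))
      have h6 : 5 ^ m ≤ (5 ^ (m + 1) - 2) / 5 + 1 := by
        rw [pow_succ]
        omega
      have h7 : 5 ^ m ≤ maxTime W6 (5 ^ (m + 1)) + 1 := h6.trans (by omega)
      have h8 : ((5 ^ m : ℕ) : ℝ) ≤ ((maxTime W6 (5 ^ (m + 1)) + 1 : ℕ) : ℝ) := by
        exact_mod_cast h7
      push_cast at h8
      linarith
    have h6 : c * ((5 : ℝ) ^ m - 1) ≤ m + 45 :=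
      (mul_le_mul_of_nonneg_left h5 hc.le).trans (h3.trans h4)
    have h7 : (m : ℝ) < c / 2 * 5 ^ m := by
      rw [div_lt_iff₀ (by positivity)] at h1
      simpa using h1
    nlinarith

end Pool.Agent.Results.MP_7332c2_co.WheelPendant
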